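import Pool.Agent.W_MP_1501a3_co.Main

set_option autoImplicit false

namespace Pool.Agent.W_MP_1501a3_co

open Finset Classical

/-- the numerical bound in the abstract setting -/
lemma bound_of_HK_HC {V : Type*} [Fintype V] {G : SimpleGraph V} {k : ℕ} (hk : 1 ≤ k)
    (hK : HK G k) (hC : HC G k) :
    (Fintype.card V : ℝ) ≤ 18 * (k : ℝ) ^ (7 / 4 : ℝ) := by
  set t : ℝ := (k : ℝ) ^ (1 / 4 : ℝ) with ht
  have hk1 : (1 : ℝ) ≤ (k : ℝ) := by exact_mod_cast hk
  have hk0 : (0 : ℝ) ≤ (k : ℝ) := by linarith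
  have ht1 : 1 ≤ t := Real.one_le_rpow hk1 (by norm_num)
  have ht0 : 0 ≤ t := by linarith
  have htk : t ^ 4 = (k : ℝ) := by
    rw [ht, ← Real.rpow_natCast, ← Real.rpow_mul hk0]
    norm_num
  have ht7 : (k : ℝ) ^ (7 / 4 : ℝ) = t ^ 7 := by
    rw [ht, ← Real.rpow_natCast, ← Real.rpow_mul hk0]
    norm_num
  rw [ht7]
  -- powers comparison
  have p1 : ∀ a b : ℕ, a ≤ b → t ^ a ≤ t ^ b := fun a b hab => pow_le_pow_right₀ ht1 hab
  have h47 := p1 4 7 (by norm_num)
  have h57 := p1 5 7 (by norm_num)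
  have h67 := p1 6 7 (by norm_num)
  have h05 := p1 0 5 (by norm_num)
  rw [pow_zero] at h05
  obtain ⟨s, hs1, hs2⟩ : ∃ s : ℕ, t ^ 5 ≤ (s : ℝ) ∧ (s : ℝ) ≤ 2 * t ^ 5 := by
    refine ⟨⌈t ^ 5⌉₊, Nat.le_ceil _, ?_⟩
    have := (Nat.ceil_lt_add_one (by positivity : (0:ℝ) ≤ t ^ 5)).le
    linarith
  have hs0 : (1 : ℝ) ≤ (s : ℝ) := by linarith
  have hs0' : 1 ≤ s := by exact_mod_cast hs0
  by_cases hn : 3 * (k + s) + 9 * k < Fintype.card V
  · by_cases hex : ∃ A, Bal G k (k + s) A
    · obtain ⟨m, h1, h2⟩ := case_one hK hC (by omega : k < k + s) hn hex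
      have h1' : (Fintype.card V : ℝ) ≤ 2 * (m : ℝ) + (k : ℝ) := by exact_mod_cast h1
      rcases h2 with h2 | h2
      · have h2' : (m : ℝ) * m ≤ k * ((2 * k) * (2 * k)) := by exact_mod_cast h2
        have h3 : (m : ℝ) ≤ 2 * t ^ 6 := by
          apply le_of_sq_le_sq _ (by positivity)
          rw [← htk] at h2'
          nlinarith [h2']
        rw [← htk] at h1'
        have : 0 ≤ t ^ 7 := by positivity
        linarith
      · have h2' : ((k + s - k : ℕ) : ℝ) * ((m - k : ℕ) : ℝ) ≤ 2 * ((k:ℝ) * (k * k)) := by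
          exact_mod_cast h2
        have h3 : k + s - k = s := by omega
        rw [h3] at h2'
        have h4 : (m : ℝ) - k ≤ ((m - k : ℕ) : ℝ) := by
          have : m ≤ (m - k) + k := by omega
          have : (m : ℝ) ≤ ((m - k : ℕ) : ℝ) + k := by exact_mod_cast this
          linarith
        have h5 : ((m - k : ℕ) : ℝ) ≤ 2 * t ^ 7 := by
          have e1 : t ^ 5 * ((m - k : ℕ) : ℝ) ≤ t ^ 5 * (2 * t ^ 7) := by
            calc t ^ 5 * ((m - k : ℕ) : ℝ) ≤ (s : ℝ) * ((m - k : ℕ) : ℝ) :=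
                  mul_le_mul_of_nonneg_right hs1 (by positivity)
              _ ≤ 2 * ((k:ℝ) * (k * k)) := h2'
              _ = t ^ 5 * (2 * t ^ 7) := by rw [← htk]; ring
          exact le_of_mul_le_mul_left e1 (by positivity)
        rw [← htk] at h1' h4
        have : 0 ≤ t ^ 7 := by positivity
        linarith
    · push Not at hex
      obtain ⟨m, h1, h2⟩ := case_zero hK hC (by omega : 3 * (k + s) + 2 * k < Fintype.card V) hex
      have h1' : (Fintype.card V : ℝ) ≤ (k : ℝ) + s + k + m := by exact_mod_cast h1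
      have h2' : (m : ℝ) * m ≤ k * ((k + s + k) * (k + s + k)) := by exact_mod_cast h2
      have h3 : (m : ℝ) ≤ t ^ 2 * (2 * t ^ 4 + s) := by
        apply le_of_sq_le_sq _ (by positivity)
        rw [← htk] at h2'
        calc (m : ℝ) ^ 2 = m * m := by ring
          _ ≤ _ := h2'
          _ = _ := by ring
      have h4 : t ^ 2 * (2 * t ^ 4 + s) ≤ 4 * t ^ 7 := by
        have e1 : t ^ 2 * (s : ℝ) ≤ t ^ 2 * (2 * t ^ 5) :=
          mul_le_mul_of_nonneg_left hs2 (by positivity)
        nlinarith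
      rw [← htk] at h1'
      have : 0 ≤ t ^ 7 := by positivity
      linarith
  · push Not at hn
    have hn' : (Fintype.card V : ℝ) ≤ 3 * ((k:ℝ) + s) + 9 * k := by exact_mod_cast hn
    rw [← htk] at hn'
    linarith

section bridge

variable {n : ℕ} {G : SimpleGraph (Fin n)} {k : ℕ}

/-- the set of vertices reachable from `u` outside `T` -/
lemma exists_part (T : Finset (Fin n)) (hT : T.card < n)
    (hnc : ¬ (G.induce ((T : Set (Fin n))ᶜ)).Connected) :
    ∃ F : Finset (Fin n), F.Nonempty ∧ (far G F).Nonempty ∧ nb G F ⊆ T := by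
  have hne : Nonempty ((T : Set (Fin n))ᶜ : Set (Fin n)) := by
    by_contra hcon
    rw [Set.not_nonempty_iff_eq_empty'] at hcon
    have : (T : Set (Fin n)) = Set.univ := Set.compl_empty_iff.1 hcon
    have h2 : T = univ := by
      ext v
      have : v ∈ (T : Set (Fin n)) := by rw [this]; trivial
      simpa using this
    rw [h2] at hT
    simp at hT
  have hnp : ¬ (G.induce ((T : Set (Fin n))ᶜ)).Preconnected := by
    intro hp
    exact hnc ⟨hp⟩
  unfold SimpleGraph.Preconnected at hnp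
  push Not at hnp
  obtain ⟨u, v, huv⟩ := hnp
  set F : Finset (Fin n) := univ.filter
    (fun w => ∃ hw : w ∈ ((T : Set (Fin n))ᶜ : Set (Fin n)),
      (G.induce ((T : Set (Fin n))ᶜ)).Reachable u ⟨w, hw⟩) with hF
  have huF : (u : Fin n) ∈ F := by
    rw [hF, mem_filter]
    exact ⟨mem_univ _, u.2, SimpleGraph.Reachable.refl _⟩
  have hnb : nb G F ⊆ T := by
    intro w hw
    obtain ⟨h1, z, hz, ha⟩ := mem_nb.1 hw
    by_contra hwT
    apply h1
    rw [hF, mem_filter] at hz ⊢
    obtain ⟨_, hz1, hz2⟩ := hz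
    have hw' : w ∈ ((T : Set (Fin n))ᶜ : Set (Fin n)) := by
      simpa using hwT
    refine ⟨mem_univ _, hw', hz2.trans ?_⟩
    apply SimpleGraph.Adj.reachable
    rw [SimpleGraph.comap_adj]
    exact ha
  refine ⟨F, ⟨u, huF⟩, ⟨v, ?_⟩, hnb⟩
  have hvF : (v : Fin n) ∉ F := by
    intro h
    rw [hF, mem_filter] at h
    exact huv h.2.2
  rcases tri G F (v : Fin n) with h | h | h
  · exact (hvF h).elim
  · have := v.2
    have h2 := hnb h
    exact (this (by exact_mod_cast h2)).elim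
  · exact h

lemma HK_of (h : ∀ S : Finset (Fin n), S.card < k →
    (G.induce ((S : Set (Fin n))ᶜ)).Connected) : HK G k := by
  intro F hF hfar
  by_contra hcon
  push Not at hcon
  have hc := h (nb G F) hcon
  obtain ⟨u, hu⟩ := hF
  obtain ⟨v, hv⟩ := hfar
  have hu' : u ∈ ((nb G F : Set (Fin n))ᶜ : Set (Fin n)) := by
    intro h
    exact not_mem_of_nb (by exact_mod_cast h) hu
  have hv' : v ∈ ((nb G F : Set (Fin n))ᶜ : Set (Fin n)) := by
    intro h
    exact not_nb_of_far hv (by exact_mod_cast h)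
  obtain ⟨p⟩ := hc.preconnected ⟨u, hu'⟩ ⟨v, hv'⟩
  have key : ∀ (a b : ((nb G F : Set (Fin n))ᶜ : Set (Fin n)))
      (_ : (G.induce ((nb G F : Set (Fin n))ᶜ)).Walk a b), (a : Fin n) ∈ F → (b : Fin n) ∈ F := by
    intro a b p
    induction p with
    | nil => exact id
    | cons hadj _ ih =>
      intro ha
      apply ih
      rename_i x y z _
      have hadj' : G.Adj (x : Fin n) (y : Fin n) := hadj
      rcases tri G F (y : Fin n) with h | h | h
      · exact h
      · exact (y.2 (by exact_mod_cast h)).elim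
      · exact (adj_far_absurd ha h hadj').elim
  exact not_mem_of_far hv (key _ _ p hu)

end bridge

theorem main :
    ∀ (n : ℕ) (G : SimpleGraph (Fin n)) (k : ℕ),
        (∀ X : Finset (Fin n), X.card ≤ 3 →
          ∃ j : ℕ, (j : ℤ) = (k : ℤ) - (X.card : ℤ) ∧
            (j < (Xᶜ).card ∧
              ∀ S : Finset (Fin n), Disjoint S X → S.card < j →
                (G.induce (((X ∪ S : Finset (Fin n)) : Set (Fin n))ᶜ)).Connected) ∧
            ¬ (j + 1 < (Xᶜ).card ∧
              ∀ S : Finset (Fin n), Disjoint S X → S.card < j + 1 →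
                (G.induce (((X ∪ S : Finset (Fin n)) : Set (Fin n))ᶜ)).Connected)) →
        (n : ℝ) ≤ 18 * (k : ℝ) ^ (7 / 4 : ℝ) := by
  intro n G k h
  -- basic facts
  obtain ⟨j0, hj0, ⟨hj1, hj2⟩, -⟩ := h ∅ (by simp)
  have hj0' : j0 = k := by simpa using hj0
  subst hj0'
  have hkn : j0 < n := by simpa using hj1
  have hpos : 0 < n := by omega
  have hk : 1 ≤ j0 := by
    obtain ⟨j, hj, -⟩ := h {⟨0, hpos⟩} (by simp)
    simp at hj
    omega
  have hk1 : (1 : ℝ) ≤ (j0 : ℝ) := by exact_mod_cast hk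
  by_cases hn : n ≤ j0 + 1
  · have h1 : (n : ℝ) ≤ (j0 : ℝ) + 1 := by exact_mod_cast hn
    have h2 : (j0 : ℝ) ≤ (j0 : ℝ) ^ (7 / 4 : ℝ) := by
      conv_lhs => rw [← Real.rpow_one (j0 : ℝ)]
      exact Real.rpow_le_rpow_of_exponent_le hk1 (by norm_num)
    linarith
  push Not at hn
  have hK : HK G j0 := by
    apply HK_of
    intro S hS
    have := hj2 S (by simp) hS
    rwa [Finset.empty_union] at this
  have hC : HC G j0 := by
    intro X hX
    obtain ⟨j, hj, ⟨hj3, -⟩, hj4⟩ := h X hX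
    have hXc : (Xᶜ).card = n - X.card := by
      rw [card_compl, Fintype.card_fin]
    have hXk : X.card ≤ j0 := by omega
    have hjk : j = j0 - X.card := by omega
    rw [not_and] at hj4
    have h5 := hj4 (by omega)
    push Not at h5
    obtain ⟨S, hS1, hS2, hS3⟩ := h5
    have hcard : (X ∪ S).card ≤ j0 := by
      have := card_union_le X S
      omega
    obtain ⟨F, hF1, hF2, hF3⟩ := exists_part (X ∪ S) (by omega) hS3
    have h6 := hK F hF1 hF2
    have h7 : nb G F = X ∪ S := eq_of_subset_of_card_le hF3 (by omega)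
    refine ⟨F, ⟨hF1, hF2, ?_⟩, ?_⟩
    · apply le_antisymm
      · rw [h7]; exact hcard
      · exact h6
    · rw [h7]; exact subset_union_left
  have := bound_of_HK_HC hk hK hC
  simpa using this

end Pool.Agent.W_MP_1501a3_co
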