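import Mathlib

set_option autoImplicit false

namespace Pool.Agent.W_MP_1501a3_co

open Finset Classical

variable {V : Type*} [Fintype V]

/-- vertices outside `F` adjacent to `F`. -/
noncomputable def nb (G : SimpleGraph V) (F : Finset V) : Finset V :=
  univ.filter (fun v => v ∉ F ∧ ∃ u ∈ F, G.Adj u v)

/-- vertices outside `F` not adjacent to `F`. -/
noncomputable def far (G : SimpleGraph V) (F : Finset V) : Finset V :=
  univ.filter (fun v => v ∉ F ∧ ∀ u ∈ F, ¬ G.Adj u v)

/-- fragments -/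
def Frag (G : SimpleGraph V) (k : ℕ) (F : Finset V) : Prop :=
  F.Nonempty ∧ (far G F).Nonempty ∧ (nb G F).card = k

/-- connectivity at least `k`, in terms of vertex boundaries. -/
def HK (G : SimpleGraph V) (k : ℕ) : Prop :=
  ∀ F : Finset V, F.Nonempty → (far G F).Nonempty → k ≤ (nb G F).card

/-- criticality -/
def HC (G : SimpleGraph V) (k : ℕ) : Prop :=
  ∀ X : Finset V, X.card ≤ 3 → ∃ F : Finset V, Frag G k F ∧ X ⊆ nb G F

variable {G : SimpleGraph V} {k : ℕ}

lemma mem_nb {F : Finset V} {v : V} : v ∈ nb G F ↔ v ∉ F ∧ ∃ u ∈ F, G.Adj u v := by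
  simp [nb]

lemma mem_far {F : Finset V} {v : V} : v ∈ far G F ↔ v ∉ F ∧ ∀ u ∈ F, ¬ G.Adj u v := by
  simp [far]

/-- trichotomy -/
lemma tri (G : SimpleGraph V) (F : Finset V) (v : V) : v ∈ F ∨ v ∈ nb G F ∨ v ∈ far G F := by
  by_cases h1 : v ∈ F
  · exact Or.inl h1
  · by_cases h2 : ∃ u ∈ F, G.Adj u v
    · exact Or.inr (Or.inl (mem_nb.2 ⟨h1, h2⟩))
    · push Not at h2
      exact Or.inr (Or.inr (mem_far.2 ⟨h1, h2⟩))

lemma not_mem_of_nb {F : Finset V} {v : V} (h : v ∈ nb G F) : v ∉ F := (mem_nb.1 h).1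
lemma not_mem_of_far {F : Finset V} {v : V} (h : v ∈ far G F) : v ∉ F := (mem_far.1 h).1
lemma not_nb_of_far {F : Finset V} {v : V} (h : v ∈ far G F) : v ∉ nb G F := by
  intro h'
  obtain ⟨_, u, hu, ha⟩ := mem_nb.1 h'
  exact (mem_far.1 h).2 u hu ha

/-- split the cardinality of a set along the three parts -/
lemma card_split (G : SimpleGraph V) (F W : Finset V) :
    W.card = (W ∩ F).card + (W ∩ nb G F).card + (W ∩ far G F).card := by
  have h1 : W = (W ∩ F) ∪ (W ∩ nb G F) ∪ (W ∩ far G F) := by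
    ext v
    simp only [mem_union, mem_inter]
    have := tri G F v
    tauto
  have hd1 : Disjoint (W ∩ F) (W ∩ nb G F) := by
    rw [Finset.disjoint_left]
    intro v hv hv'
    exact not_mem_of_nb (mem_inter.1 hv').2 (mem_inter.1 hv).2
  have hd2 : Disjoint ((W ∩ F) ∪ (W ∩ nb G F)) (W ∩ far G F) := by
    rw [Finset.disjoint_left]
    intro v hv hv'
    have hc := (mem_inter.1 hv').2
    rcases mem_union.1 hv with h | h
    · exact not_mem_of_far hc (mem_inter.1 h).2
    · exact not_nb_of_far hc (mem_inter.1 h).2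
  conv_lhs => rw [h1]
  rw [card_union_of_disjoint hd2, card_union_of_disjoint hd1]

lemma card_univ_split (G : SimpleGraph V) (F : Finset V) :
    Fintype.card V = F.card + (nb G F).card + (far G F).card := by
  have := card_split G F (univ : Finset V)
  simpa using this

lemma adj_far_absurd {F : Finset V} {u v : V} (hu : u ∈ F) (hv : v ∈ far G F) (h : G.Adj u v) :
    False := (mem_far.1 hv).2 u hu h

lemma nb_far_subset (F : Finset V) : nb G (far G F) ⊆ nb G F := by
  intro v hv
  obtain ⟨h1, u, hu, ha⟩ := mem_nb.1 hv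
  rcases tri G F v with h | h | h
  · exact (adj_far_absurd h hu ha.symm).elim
  · exact h
  · exact (h1 h).elim

lemma subset_far_far (F : Finset V) : F ⊆ far G (far G F) := by
  intro v hv
  refine mem_far.2 ⟨fun h => not_mem_of_far h hv, fun u hu ha => adj_far_absurd hv hu ha.symm⟩

lemma Frag.nb_far {F : Finset V} (hK : HK G k) (h : Frag G k F) : nb G (far G F) = nb G F := by
  apply eq_of_subset_of_card_le (nb_far_subset F)
  rw [h.2.2]
  exact hK _ h.2.1 (h.1.mono (subset_far_far F))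

lemma Frag.far_far {F : Finset V} (hK : HK G k) (h : Frag G k F) : far G (far G F) = F := by
  apply Subset.antisymm _ (subset_far_far F)
  intro v hv
  have h1 := not_mem_of_far hv
  have h2 := not_nb_of_far hv
  rw [h.nb_far hK] at h2
  rcases tri G F v with h | h | h
  · exact h
  · exact (h2 h).elim
  · exact (h1 h).elim

lemma Frag.compl {F : Finset V} (hK : HK G k) (h : Frag G k F) : Frag G k (far G F) := by
  refine ⟨h.2.1, ?_, ?_⟩
  · rw [h.far_far hK]; exact h.1
  · rw [h.nb_far hK]; exact h.2.2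

lemma far_anti {F F' : Finset V} (h : F ⊆ F') : far G F' ⊆ far G F := by
  intro v hv
  obtain ⟨h1, h2⟩ := mem_far.1 hv
  exact mem_far.2 ⟨fun hh => h1 (h hh), fun u hu => h2 u (h hu)⟩

lemma subset_nb_union {F F' : Finset V} (h : F ⊆ F') : nb G F ⊆ F' ∪ nb G F' := by
  intro v hv
  obtain ⟨_, u, hu, ha⟩ := mem_nb.1 hv
  by_cases hv' : v ∈ F'
  · exact mem_union_left _ hv'
  · exact mem_union_right _ (mem_nb.2 ⟨hv', u, h hu, ha⟩)

lemma nb_inter_subset (A B : Finset V) :
    nb G (A ∩ B) ⊆ (nb G A ∩ B) ∪ (nb G A ∩ nb G B) ∪ (A ∩ nb G B) := by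
  intro v hv
  obtain ⟨h1, u, hu, ha⟩ := mem_nb.1 hv
  obtain ⟨huA, huB⟩ := mem_inter.1 hu
  have hA : v ∈ A ∨ v ∈ nb G A := by
    by_cases h : v ∈ A
    · exact Or.inl h
    · exact Or.inr (mem_nb.2 ⟨h, u, huA, ha⟩)
  have hB : v ∈ B ∨ v ∈ nb G B := by
    by_cases h : v ∈ B
    · exact Or.inl h
    · exact Or.inr (mem_nb.2 ⟨h, u, huB, ha⟩)
  simp only [mem_union, mem_inter] at h1 ⊢
  tauto

lemma nb_union_subset (A B : Finset V) :
    nb G (A ∪ B) ⊆ (nb G A ∩ nb G B) ∪ (nb G A ∩ far G B) ∪ (nb G B ∩ far G A) := by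
  intro v hv
  obtain ⟨h1, u, hu, ha⟩ := mem_nb.1 hv
  rw [mem_union, not_or] at h1
  have hA := tri G A v
  have hB := tri G B v
  have : v ∈ nb G A ∨ v ∈ nb G B := by
    rcases mem_union.1 hu with h | h
    · exact Or.inl (mem_nb.2 ⟨h1.1, u, h, ha⟩)
    · exact Or.inr (mem_nb.2 ⟨h1.2, u, h, ha⟩)
  simp only [mem_union, mem_inter]
  tauto

lemma far_union (A B : Finset V) : far G (A ∪ B) = far G A ∩ far G B := by
  ext v
  simp only [mem_far, mem_inter, mem_union]
  constructor
  · rintro ⟨h1, h2⟩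
    exact ⟨⟨fun h => h1 (Or.inl h), fun u hu => h2 u (Or.inl hu)⟩,
      ⟨fun h => h1 (Or.inr h), fun u hu => h2 u (Or.inr hu)⟩⟩
  · rintro ⟨⟨h1, h2⟩, ⟨h3, h4⟩⟩
    exact ⟨fun h => h.elim h1 h3, fun u hu => hu.elim (h2 u) (h4 u)⟩

/-- the corner inequality -/
lemma corner_ge (hK : HK G k) {A B : Finset V} (hA : Frag G k A)
    (h : (A ∩ B).Nonempty) :
    k ≤ (nb G A ∩ B).card + (nb G A ∩ nb G B).card + (A ∩ nb G B).card := by
  have h1 : k ≤ (nb G (A ∩ B)).card :=
    hK _ h (hA.2.1.mono (far_anti inter_subset_left))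
  refine h1.trans ((card_le_card (nb_inter_subset A B)).trans ?_)
  refine (card_union_le _ _).trans ?_
  exact Nat.add_le_add_right (card_union_le _ _) _

/-- `A ∩ B ≠ ∅` gives `|S ∩ B'| ≤ |A ∩ T|` and `|T ∩ A'| ≤ |S ∩ B|`. -/
lemma corner (hK : HK G k) {A B : Finset V} (hA : Frag G k A) (hB : Frag G k B)
    (h : (A ∩ B).Nonempty) :
    (nb G A ∩ far G B).card ≤ (nb G B ∩ A).card ∧
    (nb G B ∩ far G A).card ≤ (nb G A ∩ B).card := by
  have h0 := corner_ge hK hA h
  have h1 := card_split G B (nb G A)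
  have h2 := card_split G A (nb G B)
  rw [hA.2.2] at h1
  rw [hB.2.2] at h2
  rw [inter_comm A (nb G B)] at h0
  rw [inter_comm (nb G B) (nb G A)] at h2
  omega

lemma Frag.union (hK : HK G k) {A B : Finset V} (hA : Frag G k A) (hB : Frag G k B)
    (h : (A ∩ B).Nonempty) (h' : (far G A ∩ far G B).Nonempty) : Frag G k (A ∪ B) := by
  have hne : (A ∪ B).Nonempty := hA.1.mono subset_union_left
  have hfar : (far G (A ∪ B)).Nonempty := by rw [far_union]; exact h'
  refine ⟨hne, hfar, ?_⟩
  apply le_antisymm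
  · have h0 := corner_ge hK hA h
    have h1 := card_split G B (nb G A)
    have h2 := card_split G A (nb G B)
    rw [hA.2.2] at h1
    rw [hB.2.2] at h2
    rw [inter_comm A (nb G B)] at h0
    rw [inter_comm (nb G B) (nb G A)] at h2
    have h3 : (nb G (A ∪ B)).card ≤
        (nb G A ∩ nb G B).card + (nb G A ∩ far G B).card + (nb G B ∩ far G A).card := by
      refine ((card_le_card (nb_union_subset A B)).trans ?_)
      refine (card_union_le _ _).trans ?_
      exact Nat.add_le_add_right (card_union_le _ _) _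
    omega
  · exact hK _ hne hfar

lemma Frag.inter (hK : HK G k) {A B : Finset V} (hA : Frag G k A) (hB : Frag G k B)
    (h : (A ∩ B).Nonempty) (h' : (far G A ∩ far G B).Nonempty) : Frag G k (A ∩ B) := by
  have hfar : (far G (A ∩ B)).Nonempty := hA.2.1.mono (far_anti inter_subset_left)
  refine ⟨h, hfar, ?_⟩
  apply le_antisymm
  · have hU := hK (A ∪ B) (hA.1.mono subset_union_left) (by rw [far_union]; exact h')
    have h1 := card_split G B (nb G A)
    have h2 := card_split G A (nb G B)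
    rw [hA.2.2] at h1
    rw [hB.2.2] at h2
    rw [inter_comm (nb G B) (nb G A)] at h2
    have h3 : (nb G (A ∪ B)).card ≤
        (nb G A ∩ nb G B).card + (nb G A ∩ far G B).card + (nb G B ∩ far G A).card := by
      refine ((card_le_card (nb_union_subset A B)).trans ?_)
      refine (card_union_le _ _).trans ?_
      exact Nat.add_le_add_right (card_union_le _ _) _
    have h4 : (nb G (A ∩ B)).card ≤
        (nb G A ∩ B).card + (nb G A ∩ nb G B).card + (A ∩ nb G B).card := by
      refine ((card_le_card (nb_inter_subset A B)).trans ?_)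
      refine (card_union_le _ _).trans ?_
      exact Nat.add_le_add_right (card_union_le _ _) _
    rw [inter_comm A (nb G B)] at h4
    omega
  · exact hK _ h hfar

/-- `A` meets both sides of the cut `nb B`. -/
def Split (G : SimpleGraph V) (A B : Finset V) : Prop :=
  (A ∩ B).Nonempty ∧ (A ∩ far G B).Nonempty

/-- if `A` is split by the cut then `|T ∩ A'| ≤ |T ∩ A|`. -/
lemma Split.card_le (hK : HK G k) {A B : Finset V} (hA : Frag G k A) (hB : Frag G k B)
    (h : Split G A B) : (nb G B ∩ far G A).card ≤ (nb G B ∩ A).card := by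
  have h1 := (corner hK hA hB h.1).1
  have h2 := (corner hK hA (hB.compl hK) h.2).2
  rw [hB.nb_far hK] at h2
  omega

lemma Split.symm (hK : HK G k) {A B : Finset V} (hB : Frag G k B) (h : Split G A B) :
    Split G A (far G B) := ⟨h.2, by rw [hB.far_far hK]; exact h.1⟩

end Pool.Agent.W_MP_1501a3_co
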