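import Pool.Agent.W_MP_1501a3_co.Basic

set_option autoImplicit false

namespace Pool.Agent.W_MP_1501a3_co

open Finset Classical

variable {V : Type*} [Fintype V] {G : SimpleGraph V} {k : ℕ}

/-- the pair counting lemma for union closed families -/
lemma count {S Y1 Y2 : Finset V} {P : Finset V → Prop} {w : ℕ}
    (hun : ∀ C1 C2, P C1 → P C2 → (C1 ∩ C2).Nonempty → P (C1 ∪ C2))
    (hw : ∀ C, P C → ((C ∪ nb G C) ∩ Y1).card ≤ w ∧ ((C ∪ nb G C) ∩ Y2).card ≤ w)
    (hcov : ∀ y1 ∈ Y1, ∀ y2 ∈ Y2, ∃ C, P C ∧ (C ∩ S).Nonempty ∧ y1 ∈ nb G C ∧ y2 ∈ nb G C) :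
    Y1.card * Y2.card ≤ S.card * (w * w) := by
  have key : ∀ z : V, ∃ W : Finset V, (W ∩ Y1).card ≤ w ∧ (W ∩ Y2).card ≤ w ∧
      ∀ C, P C → z ∈ C → nb G C ⊆ W := by
    intro z
    by_cases hne : (univ.filter (fun C : Finset V => P C ∧ z ∈ C)).Nonempty
    · obtain ⟨M, hM, hmax⟩ := exists_max_image _ (fun C : Finset V => C.card) hne
      rw [mem_filter] at hM
      refine ⟨M ∪ nb G M, (hw M hM.2.1).1, (hw M hM.2.1).2, ?_⟩
      intro C hC hz
      have h1 : P (C ∪ M) := hun C M hC hM.2.1 ⟨z, mem_inter.2 ⟨hz, hM.2.2⟩⟩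
      have h2 := hmax (C ∪ M) (by
        rw [mem_filter]
        exact ⟨mem_univ _, h1, mem_union_left _ hz⟩)
      have h3 : M = C ∪ M := eq_of_subset_of_card_le subset_union_right h2
      have h4 : C ⊆ M := by rw [h3]; exact subset_union_left
      exact subset_nb_union h4
    · refine ⟨∅, by simp, by simp, ?_⟩
      intro C hC hz
      exact (hne ⟨C, by rw [mem_filter]; exact ⟨mem_univ _, hC, hz⟩⟩).elim
  choose W hW1 hW2 hW3 using key
  have hsub : Y1 ×ˢ Y2 ⊆ S.biUnion (fun z => (W z ∩ Y1) ×ˢ (W z ∩ Y2)) := by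
    rintro ⟨y1, y2⟩ hy
    rw [mem_product] at hy
    obtain ⟨C, hC, ⟨z, hz⟩, h1, h2⟩ := hcov y1 hy.1 y2 hy.2
    rw [mem_inter] at hz
    rw [mem_biUnion]
    refine ⟨z, hz.2, ?_⟩
    rw [mem_product, mem_inter, mem_inter]
    exact ⟨⟨hW3 z C hC hz.1 h1, hy.1⟩, ⟨hW3 z C hC hz.1 h2, hy.2⟩⟩
  calc Y1.card * Y2.card = (Y1 ×ˢ Y2).card := (card_product _ _).symm
    _ ≤ (S.biUnion (fun z => (W z ∩ Y1) ×ˢ (W z ∩ Y2))).card := card_le_card hsub
    _ ≤ ∑ z ∈ S, ((W z ∩ Y1) ×ˢ (W z ∩ Y2)).card := card_biUnion_le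
    _ ≤ ∑ z ∈ S, w * w := by
        apply sum_le_sum
        intro z _
        rw [card_product]
        exact Nat.mul_le_mul (hW1 z) (hW2 z)
    _ = S.card * (w * w) := by rw [sum_const, smul_eq_mul]

/-- a fragment whose boundary meets both sides of the cut `nb A` meets `nb A`. -/
lemma meets (hK : HK G k) {A B : Finset V} (hA : Frag G k A) (hB : Frag G k B)
    {x y : V} (hx : x ∈ A) (hxB : x ∈ nb G B) (hy : y ∈ far G A) (hyB : y ∈ nb G B) :
    (B ∩ nb G A).Nonempty := by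
  obtain ⟨b, hb⟩ := hB.1
  rcases tri G A b with h | h | h
  · have h1 := (corner hK hA hB ⟨b, mem_inter.2 ⟨h, hb⟩⟩).2
    have h2 : 0 < (nb G B ∩ far G A).card := card_pos.2 ⟨y, mem_inter.2 ⟨hyB, hy⟩⟩
    rw [inter_comm]
    exact card_pos.1 (lt_of_lt_of_le h2 h1)
  · exact ⟨b, mem_inter.2 ⟨hb, h⟩⟩
  · have h1 := (corner hK (hA.compl hK) hB ⟨b, mem_inter.2 ⟨h, hb⟩⟩).2
    rw [hA.far_far hK, hA.nb_far hK] at h1
    have h2 : 0 < (nb G B ∩ A).card := card_pos.2 ⟨x, mem_inter.2 ⟨hxB, hx⟩⟩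
    rw [inter_comm]
    exact card_pos.1 (lt_of_lt_of_le h2 h1)

lemma mem_nb_union {C1 C2 : Finset V} {x : V} (h1 : x ∈ nb G C1) (h2 : x ∈ nb G C2) :
    x ∈ nb G (C1 ∪ C2) := by
  obtain ⟨h3, u, hu, ha⟩ := mem_nb.1 h1
  refine mem_nb.2 ⟨?_, u, mem_union_left _ hu, ha⟩
  rw [mem_union, not_or]
  exact ⟨h3, not_mem_of_nb h2⟩

/-- two small fragments leave room outside -/
lemma room {C1 C2 : Finset V} (h1 : (nb G C1).card = k) (h2 : (nb G C2).card = k)
    (h : C1.card + C2.card + 2 * k < Fintype.card V) : (far G C1 ∩ far G C2).Nonempty := by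
  by_contra hcon
  rw [not_nonempty_iff_eq_empty] at hcon
  have hsub : (univ : Finset V) ⊆ (C1 ∪ nb G C1) ∪ (C2 ∪ nb G C2) := by
    intro v _
    have hA := tri G C1 v
    have hB := tri G C2 v
    have hn : v ∉ far G C1 ∩ far G C2 := by rw [hcon]; simp
    simp only [mem_inter, mem_union] at hn ⊢
    tauto
  have h3 := card_le_card hsub
  have h4 := card_union_le (C1 ∪ nb G C1) (C2 ∪ nb G C2)
  have h5 := card_union_le C1 (nb G C1)
  have h6 := card_union_le C2 (nb G C2)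
  rw [card_univ] at h3
  omega

/-- the set of vertices of `A` seen from `Q` -/
noncomputable def see (G : SimpleGraph V) (A Q : Finset V) : Finset V :=
  A.filter (fun v => ∃ u ∈ Q, G.Adj u v)

lemma mem_see {A Q : Finset V} {v : V} : v ∈ see G A Q ↔ v ∈ A ∧ ∃ u ∈ Q, G.Adj u v := by
  simp [see]

lemma see_ge (hK : HK G k) {A Q : Finset V} (hA : Frag G k A) (hQ : Q ⊆ nb G A)
    (hne : see G A Q ≠ A) : Q.card ≤ (see G A Q).card := by
  have hsub : see G A Q ⊆ A := filter_subset _ _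
  have hZ : (A \ see G A Q).Nonempty := by
    rw [nonempty_iff_ne_empty]
    intro h
    exact hne (Subset.antisymm hsub (sdiff_eq_empty_iff_subset.1 h))
  have h1 : k ≤ (nb G (A \ see G A Q)).card :=
    hK _ hZ (hA.2.1.mono (far_anti sdiff_subset))
  have h2 : nb G (A \ see G A Q) ⊆ see G A Q ∪ (nb G A \ Q) := by
    intro v hv
    obtain ⟨h3, u, hu, ha⟩ := mem_nb.1 hv
    rw [mem_sdiff] at hu
    by_cases hvA : v ∈ A
    · apply mem_union_left
      by_contra h4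
      exact h3 (mem_sdiff.2 ⟨hvA, h4⟩)
    · apply mem_union_right
      rw [mem_sdiff]
      refine ⟨mem_nb.2 ⟨hvA, u, hu.1, ha⟩, fun hvQ => hu.2 (mem_see.2 ⟨hu.1, v, hvQ, ha.symm⟩)⟩
  have h3 := (card_le_card h2).trans (card_union_le _ _)
  have h4 := card_sdiff_of_subset hQ
  have h5 := card_le_card hQ
  rw [hA.2.2] at h4 h5
  omega

/-- the deep part of a fragment with more than `k` vertices. -/
lemma exists_deep (hK : HK G k) {A : Finset V} (hA : Frag G k A) (hAk : k < A.card) :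
    ∃ D : Finset V, D ⊆ A ∧ A.card ≤ D.card + k ∧
      ∀ x ∈ D, ∀ B, Frag G k B → x ∈ nb G B → A ∩ B = ∅ → B ⊆ nb G A := by
  -- tight sets
  have hne : ∀ Q ⊆ nb G A, (see G A Q).card ≤ k → see G A Q ≠ A := by
    intro Q _ h1 h2
    rw [h2] at h1
    omega
  set T : Finset (Finset V) := (nb G A).powerset.filter (fun Q => (see G A Q).card ≤ Q.card)
    with hT
  have hTcl : ∀ Q1 ∈ T, ∀ Q2 ∈ T, Q1 ∪ Q2 ∈ T := by
    intro Q1 h1 Q2 h2
    rw [hT, mem_filter, mem_powerset] at h1 h2 ⊢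
    refine ⟨union_subset h1.1 h2.1, ?_⟩
    have hu : see G A (Q1 ∪ Q2) = see G A Q1 ∪ see G A Q2 := by
      ext v
      simp only [mem_see, mem_union]
      constructor
      · rintro ⟨h, u, hu | hu, ha⟩
        · exact Or.inl ⟨h, u, hu, ha⟩
        · exact Or.inr ⟨h, u, hu, ha⟩
      · rintro (⟨h, u, hu, ha⟩ | ⟨h, u, hu, ha⟩)
        · exact ⟨h, u, Or.inl hu, ha⟩
        · exact ⟨h, u, Or.inr hu, ha⟩
    have hi : see G A (Q1 ∩ Q2) ⊆ see G A Q1 ∩ see G A Q2 := by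
      intro v hv
      obtain ⟨h, u, hu, ha⟩ := mem_see.1 hv
      rw [mem_inter] at hu
      exact mem_inter.2 ⟨mem_see.2 ⟨h, u, hu.1, ha⟩, mem_see.2 ⟨h, u, hu.2, ha⟩⟩
    have h3 := card_union_add_card_inter (see G A Q1) (see G A Q2)
    have h4 := card_union_add_card_inter Q1 Q2
    have h5 := card_le_card hi
    have h6 : (see G A Q1 ∩ see G A Q2).card ≤ (see G A Q1).card :=
      card_le_card inter_subset_left
    have h7 := card_le_card h1.1
    rw [hA.2.2] at h7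
    have h8 : (Q1 ∩ Q2).card ≤ (see G A (Q1 ∩ Q2)).card := by
      apply see_ge hK hA (inter_subset_left.trans h1.1)
      apply hne _ (inter_subset_left.trans h1.1)
      omega
    rw [hu]
    omega
  have hTe : T.Nonempty := ⟨∅, by
    rw [hT, mem_filter, mem_powerset]
    refine ⟨empty_subset _, ?_⟩
    have : see G A ∅ = ∅ := by
      ext v; simp [mem_see]
    rw [this]⟩
  obtain ⟨M, hM, hmax⟩ := exists_max_image T (fun C : Finset V => C.card) hTe
  have hsubM : ∀ Q ∈ T, Q ⊆ M := by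
    intro Q hQ
    have h1 := hTcl Q hQ M hM
    have h2 := hmax _ h1
    have h3 : M = Q ∪ M := eq_of_subset_of_card_le subset_union_right h2
    rw [h3]; exact subset_union_left
  have hM' := hM
  rw [hT, mem_filter, mem_powerset] at hM'
  refine ⟨A \ see G A M, sdiff_subset, ?_, ?_⟩
  · have h1 : see G A M ⊆ A := filter_subset _ _
    have h2 := card_sdiff_of_subset h1
    have h3 := card_le_card h1
    have h4 := card_le_card hM'.1
    rw [hA.2.2] at h4
    omega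
  · intro x hx B hB hxB hAB
    rw [mem_sdiff] at hx
    by_contra hcon
    -- then `B` meets `far A`
    have hfar : (far G A ∩ B).Nonempty := by
      rw [not_subset] at hcon
      obtain ⟨b, hb, hb'⟩ := hcon
      rcases tri G A b with h | h | h
      · exfalso
        have : b ∈ A ∩ B := mem_inter.2 ⟨h, hb⟩
        rw [hAB] at this
        simp at this
      · exact (hb' h).elim
      · exact ⟨b, mem_inter.2 ⟨h, hb⟩⟩
    have h1 := (corner hK (hA.compl hK) hB hfar).2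
    rw [hA.far_far hK, hA.nb_far hK] at h1
    have hseeQ : see G A (nb G A ∩ B) ⊆ nb G B ∩ A := by
      intro v hv
      obtain ⟨h2, u, hu, ha⟩ := mem_see.1 hv
      rw [mem_inter] at hu
      rw [mem_inter]
      refine ⟨mem_nb.2 ⟨fun h => ?_, u, hu.2, ha⟩, h2⟩
      have : v ∈ A ∩ B := mem_inter.2 ⟨h2, h⟩
      rw [hAB] at this
      simp at this
    have hQT : nb G A ∩ B ∈ T := by
      rw [hT, mem_filter, mem_powerset]
      exact ⟨inter_subset_left, (card_le_card hseeQ).trans h1⟩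
    apply hx.2
    obtain ⟨_, u, hu, ha⟩ := mem_nb.1 hxB
    refine mem_see.2 ⟨hx.1, u, hsubM _ hQT ?_, ha⟩
    rw [mem_inter]
    refine ⟨?_, hu⟩
    refine mem_nb.2 ⟨fun h => ?_, x, hx.1, ha.symm⟩
    have : u ∈ A ∩ B := mem_inter.2 ⟨h, hu⟩
    rw [hAB] at this
    simp at this

end Pool.Agent.W_MP_1501a3_co
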