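import Pool.Agent.W_MP_1501a3_co.Count

set_option autoImplicit false

namespace Pool.Agent.W_MP_1501a3_co

open Finset Classical

variable {V : Type*} [Fintype V] {G : SimpleGraph V} {k : ℕ}

lemma far_symm {A B : Finset V} (h : B ⊆ far G A) : A ⊆ far G B := by
  intro x hx
  refine mem_far.2 ⟨fun hxB => not_mem_of_far (h hxB) hx, fun u hu ha => ?_⟩
  exact adj_far_absurd hx (h hu) ha.symm

/-- two far fragments cannot both be split by a cut that also meets a third far set. -/
lemma two_split (hK : HK G k) {A1 A2 B : Finset V} (h1 : Frag G k A1) (h2 : Frag G k A2)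
    (hB : Frag G k B) (h12 : A2 ⊆ far G A1) {y : V} (hy1 : y ∈ far G A1) (hy2 : y ∈ far G A2)
    (hy : y ∈ nb G B) (hs1 : Split G A1 B) (hs2 : Split G A2 B) : False := by
  have e1 := hs1.card_le hK h1 hB
  have e2 := hs2.card_le hK h2 hB
  have h21 := far_symm h12
  have f1 : (nb G B ∩ A2).card + 1 ≤ (nb G B ∩ far G A1).card := by
    have hlt : nb G B ∩ A2 ⊂ nb G B ∩ far G A1 := by
      rw [Finset.ssubset_iff_of_subset (inter_subset_inter_left h12)]
      exact ⟨y, mem_inter.2 ⟨hy, hy1⟩, fun h => not_mem_of_far hy2 (mem_inter.1 h).2⟩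
    exact card_lt_card hlt
  have f2 : (nb G B ∩ A1).card + 1 ≤ (nb G B ∩ far G A2).card := by
    have hlt : nb G B ∩ A1 ⊂ nb G B ∩ far G A2 := by
      rw [Finset.ssubset_iff_of_subset (inter_subset_inter_left h21)]
      exact ⟨y, mem_inter.2 ⟨hy, hy2⟩, fun h => not_mem_of_far hy1 (mem_inter.1 h).2⟩
    exact card_lt_card hlt
  omega

/-- deepness, in the form used -/
def Deep (G : SimpleGraph V) (k : ℕ) (A D : Finset V) : Prop :=
  D ⊆ A ∧ A.card ≤ D.card + k ∧
    ∀ x ∈ D, ∀ B, Frag G k B → x ∈ nb G B → ¬ Split G A B → B ⊆ nb G A ∨ far G B ⊆ nb G A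

lemma exists_Deep (hK : HK G k) {A : Finset V} (hA : Frag G k A) (hAk : k < A.card) :
    ∃ D : Finset V, Deep G k A D := by
  obtain ⟨D, h1, h2, h3⟩ := exists_deep hK hA hAk
  refine ⟨D, h1, h2, ?_⟩
  intro x hx B hB hxB hs
  unfold Split at hs
  rw [not_and_or, not_nonempty_iff_eq_empty, not_nonempty_iff_eq_empty] at hs
  rcases hs with hs | hs
  · exact Or.inl (h3 x hx B hB hxB hs)
  · right
    apply h3 x hx (far G B) (hB.compl hK) _ hs
    rw [hB.nb_far hK]
    exact hxB

/-- two far fragments of size more than `k`: the product bound. -/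
lemma two_far (hK : HK G k) (hC : HC G k) (hn : 4 * k < Fintype.card V)
    {A1 A2 Y : Finset V} (h1 : Frag G k A1) (h2 : Frag G k A2)
    (h12 : A2 ⊆ far G A1) (hY1 : Y ⊆ far G A1) (hY2 : Y ⊆ far G A2)
    (c1 : k < A1.card) (c2 : k < A2.card) :
    (A2.card - k) * Y.card ≤ k * (k * k) := by
  obtain ⟨D1, hD1, hD1c, hD1'⟩ := exists_Deep hK h1 c1
  obtain ⟨D2, hD2, hD2c, hD2'⟩ := exists_Deep hK h2 c2
  have hne : D1.Nonempty := by
    rw [← card_pos]; omega
  obtain ⟨x1, hx1⟩ := hne
  have h21 := far_symm h12
  have hcount : D2.card * Y.card ≤ (nb G A1).card * (k * k) := by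
    apply count (G := G) (P := fun C => Frag G k C ∧ C ⊆ nb G A1 ∧ x1 ∈ nb G C)
    · rintro C1 C2 ⟨p1, p2, p3⟩ ⟨q1, q2, q3⟩ hne
      refine ⟨?_, union_subset p2 q2, mem_nb_union p3 q3⟩
      apply p1.union hK q1 hne
      apply room p1.2.2 q1.2.2
      have e1 := card_le_card p2
      have e2 := card_le_card q2
      rw [h1.2.2] at e1 e2
      omega
    · rintro C ⟨p1, p2, p3⟩
      have aux : ∀ Z : Finset V, Z ⊆ far G A1 → ((C ∪ nb G C) ∩ Z).card ≤ k := by
        intro Z hZ
        have : (C ∪ nb G C) ∩ Z ⊆ nb G C := by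
          intro v hv
          rw [mem_inter, mem_union] at hv
          rcases hv.1 with h | h
          · exact (not_nb_of_far (hZ hv.2) (p2 h)).elim
          · exact h
        have := card_le_card this
        rw [p1.2.2] at this
        exact this
      exact ⟨aux D2 (hD2.trans h12), aux Y hY1⟩
    · intro x2 hx2 y hy
      obtain ⟨B, hB, hXB⟩ := hC {x1, x2, y} (card_le_three)
      have hx1B : x1 ∈ nb G B := hXB (by simp)
      have hx2B : x2 ∈ nb G B := hXB (by simp)
      have hyB : y ∈ nb G B := hXB (by simp)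
      have hns : ¬ Split G A1 B := by
        intro hs1
        by_cases hs2 : Split G A2 B
        · exact two_split hK h1 h2 hB h12 (hY1 hy) (hY2 hy) hyB hs1 hs2
        · rcases hD2' x2 hx2 B hB hx2B hs2 with h | h
          · obtain ⟨v, hv⟩ := hs1.1
            rw [mem_inter] at hv
            exact not_nb_of_far (h21 hv.1) (h hv.2)
          · obtain ⟨v, hv⟩ := hs1.2
            rw [mem_inter] at hv
            exact not_nb_of_far (h21 hv.1) (h hv.2)
      rcases hD1' x1 hx1 B hB hx1B hns with h | h
      · refine ⟨B, ⟨hB, h, hx1B⟩, ?_, hx2B, hyB⟩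
        rw [inter_eq_left.2 h]; exact hB.1
      · refine ⟨far G B, ⟨hB.compl hK, h, ?_⟩, ?_, ?_, ?_⟩
        · rw [hB.nb_far hK]; exact hx1B
        · rw [inter_eq_left.2 h]; exact hB.2.1
        · rw [hB.nb_far hK]; exact hx2B
        · rw [hB.nb_far hK]; exact hyB
  rw [h1.2.2] at hcount
  refine le_trans (Nat.mul_le_mul_right _ ?_) hcount
  omega

/-- balanced fragments -/
def Bal (G : SimpleGraph V) (k L : ℕ) (A : Finset V) : Prop :=
  Frag G k A ∧ L ≤ A.card ∧ L ≤ (far G A).card

/-- case 0 : no balanced fragment -/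
lemma case_zero (hK : HK G k) (hC : HC G k) {L : ℕ} (hn : 3 * L + 2 * k < Fintype.card V)
    (hno : ∀ A, ¬ Bal G k L A) :
    ∃ m : ℕ, Fintype.card V ≤ L + k + m ∧ m * m ≤ k * ((L + k) * (L + k)) := by
  have small : ∀ B, Frag G k B → B.card < L ∨ (far G B).card < L := by
    intro B hB
    by_contra hcon
    push Not at hcon
    exact hno B ⟨hB, hcon.1, hcon.2⟩
  -- a small fragment
  have hA : ∃ A, Frag G k A ∧ A.card < L := by
    obtain ⟨B, hB, _⟩ := hC ∅ (by simp)
    rcases small B hB with h | h
    · exact ⟨B, hB, h⟩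
    · exact ⟨far G B, hB.compl hK, h⟩
  obtain ⟨A, hA, hAL⟩ := hA
  obtain ⟨x, hx⟩ := hA.1
  refine ⟨(far G A).card, ?_, ?_⟩
  · have := card_univ_split G A
    rw [hA.2.2] at this
    omega
  · rw [← hA.2.2]
    conv_rhs => rw [hA.2.2]
    conv_rhs => lhs; rw [← hA.2.2]
    apply count (G := G) (P := fun C => Frag G k C ∧ C.card < L ∧ x ∈ nb G C)
    · rintro C1 C2 ⟨p1, p2, p3⟩ ⟨q1, q2, q3⟩ hne
      have hun : Frag G k (C1 ∪ C2) := by
        apply p1.union hK q1 hne
        apply room p1.2.2 q1.2.2
        omega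
      refine ⟨hun, ?_, mem_nb_union p3 q3⟩
      rcases small _ hun with h | h
      · exact h
      · exfalso
        have e1 := card_univ_split G (C1 ∪ C2)
        have e2 := card_union_le C1 C2
        rw [hun.2.2] at e1
        omega
    · rintro C ⟨p1, p2, p3⟩
      have aux : ((C ∪ nb G C) ∩ far G A).card ≤ L + k := by
        have e1 := card_le_card (inter_subset_left (s₁ := C ∪ nb G C) (s₂ := far G A))
        have e2 := card_union_le C (nb G C)
        rw [p1.2.2] at e2
        omega
      exact ⟨aux, aux⟩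
    · intro y1 hy1 y2 hy2
      obtain ⟨B, hB, hXB⟩ := hC {x, y1, y2} (card_le_three)
      have hxB : x ∈ nb G B := hXB (by simp)
      have hy1B : y1 ∈ nb G B := hXB (by simp)
      have hy2B : y2 ∈ nb G B := hXB (by simp)
      have hB' := hB.compl hK
      have hnB := hB.nb_far hK
      rcases small B hB with h | h
      · exact ⟨B, ⟨hB, h, hxB⟩, meets hK hA hB hx hxB hy1 hy1B, hy1B, hy2B⟩
      · refine ⟨far G B, ⟨hB', h, ?_⟩, meets hK hA hB' hx ?_ hy1 ?_, ?_, ?_⟩ <;>
          rw [hnB] <;> assumption

/-- case 1 : there is a balanced fragment -/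
lemma case_one (hK : HK G k) (hC : HC G k) {L : ℕ} (hL : k < L)
    (hn : 3 * L + 9 * k < Fintype.card V)
    (hex : ∃ A, Bal G k L A) :
    ∃ m : ℕ, Fintype.card V ≤ 2 * m + k ∧
      (m * m ≤ k * ((2 * k) * (2 * k)) ∨ (L - k) * (m - k) ≤ 2 * (k * (k * k))) := by
  -- minimal balanced fragment
  obtain ⟨A, hAm, hmin⟩ := exists_min_image
    ((univ : Finset (Finset V)).filter (fun A => Bal G k L A)) (fun A => A.card)
    (by obtain ⟨A, hA⟩ := hex; exact ⟨A, by rw [mem_filter]; exact ⟨mem_univ _, hA⟩⟩)
  rw [mem_filter] at hAm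
  obtain ⟨-, hA, hAL, hAL'⟩ := hAm
  have hmin' : ∀ F, Frag G k F → F ⊆ A → F ≠ A → F.card < L := by
    intro F hF hsub hne
    by_contra hcon
    push Not at hcon
    have h1 : Bal G k L F := ⟨hF, hcon, hAL'.trans (card_le_card (far_anti hsub))⟩
    have h2 := hmin F (by rw [mem_filter]; exact ⟨mem_univ _, h1⟩)
    exact hne (eq_of_subset_of_card_le hsub h2)
  have hAle : A.card ≤ (far G A).card := by
    apply hmin (far G A)
    rw [mem_filter]
    refine ⟨mem_univ _, hA.compl hK, hAL', ?_⟩
    rw [hA.far_far hK]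
    exact hAL
  refine ⟨(far G A).card, ?_, ?_⟩
  · have := card_univ_split G A
    rw [hA.2.2] at this
    omega
  by_cases hiv : (L - k) * ((far G A).card - k) ≤ 2 * (k * (k * k))
  · exact Or.inr hiv
  left
  obtain ⟨D, hD, hDc, hD'⟩ := exists_Deep hK hA (lt_of_lt_of_le hL hAL)
  have hne : D.Nonempty := by
    rw [← card_pos]; omega
  obtain ⟨x, hx⟩ := hne
  have hxA := hD hx
  -- analysis of a cut through x
  have one : ∀ C, Frag G k C → x ∈ nb G C → (A ∩ C).Nonempty → (A ∩ far G C).Nonempty →
      (C ∩ far G A).card ≤ k → (far G A ∩ far G C).Nonempty → C.card < L + 2 * k := by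
    intro C hCf hxC hAC _ hle hfar
    have h1 : Frag G k (A ∩ C) := hA.inter hK hCf hAC hfar
    have h2 : (A ∩ C).card < L := by
      apply hmin' _ h1 inter_subset_left
      intro h
      have : x ∈ A ∩ C := by rw [h]; exact hxA
      exact not_mem_of_nb hxC (mem_inter.1 this).2
    have h3 := card_split G A C
    have h4 : (C ∩ nb G A).card ≤ k := by
      rw [← hA.2.2]; exact card_le_card inter_subset_right
    rw [inter_comm A C] at h2
    omega
  have ana : ∀ C, Frag G k C → x ∈ nb G C →
      (C.card < L + 2 * k ∧ (C ∩ far G A).card ≤ k) ∨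
      ((far G C).card < L + 2 * k ∧ (far G C ∩ far G A).card ≤ k) := by
    intro C hCf hxC
    have hC' := hCf.compl hK
    have hnC := hCf.nb_far hK
    have hfC := hCf.far_far hK
    have hxC' : x ∈ nb G (far G C) := by rw [hnC]; exact hxC
    by_cases hs : Split G A C
    · by_cases e1 : (far G A ∩ C).Nonempty
      · by_cases e2 : (far G A ∩ far G C).Nonempty
        · -- all four corners are nonempty
          have f1 : Frag G k (far G A ∩ C) := by
            apply (hA.compl hK).inter hK hCf e1
            rw [hA.far_far hK]; exact hs.2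
          have f2 : Frag G k (far G A ∩ far G C) := by
            apply (hA.compl hK).inter hK hC' e2
            rw [hA.far_far hK, hfC]; exact hs.1
          have g1 : A ⊆ far G (far G A ∩ C) := far_symm inter_subset_left
          have g2 : A ⊆ far G (far G A ∩ far G C) := far_symm inter_subset_left
          have g3 : far G A ∩ far G C ⊆ far G (far G A ∩ C) := by
            have : far G C ⊆ far G (far G A ∩ C) := far_anti inter_subset_right
            exact inter_subset_right.trans this
          have g4 := far_symm g3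
          have hAk : k < A.card := lt_of_lt_of_le hL hAL
          have hn4 : 4 * k < Fintype.card V := by omega
          have hsplit := card_split G C (far G A)
          have hnk : (far G A ∩ nb G C).card ≤ k := by
            rw [← hCf.2.2]; exact card_le_card inter_subset_right
          by_cases c1 : (far G A ∩ C).card ≤ k
          · left
            have c1' := c1
            rw [inter_comm] at c1'
            exact ⟨one C hCf hxC hs.1 hs.2 c1' e2, c1'⟩
          · by_cases c2 : (far G A ∩ far G C).card ≤ k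
            · right
              have c2' := c2
              rw [inter_comm] at c2'
              refine ⟨one (far G C) hC' hxC' hs.2 ?_ c2' ?_, c2'⟩
              · rw [hfC]; exact hs.1
              · rw [hfC]; exact e1
            · exfalso
              push Not at c1 c2
              have r1 := two_far hK hC hn4 f1 hA g1 g3 inter_subset_left c1 hAk
              have r2 := two_far hK hC hn4 f2 hA g2 g4 inter_subset_left c2 hAk
              apply hiv
              have s1 : (L - k) * (far G A ∩ far G C).card ≤ k * (k * k) :=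
                le_trans (Nat.mul_le_mul_right _ (by omega)) r1
              have s2 : (L - k) * (far G A ∩ C).card ≤ k * (k * k) :=
                le_trans (Nat.mul_le_mul_right _ (by omega)) r2
              have s3 : (far G A).card - k ≤
                  (far G A ∩ C).card + (far G A ∩ far G C).card := by omega
              calc (L - k) * ((far G A).card - k)
                  ≤ (L - k) * ((far G A ∩ C).card + (far G A ∩ far G C).card) :=
                    Nat.mul_le_mul_left _ s3
                _ = (L - k) * (far G A ∩ C).card + (L - k) * (far G A ∩ far G C).card := by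
                    rw [mul_add]
                _ ≤ 2 * (k * (k * k)) := by omega
        · -- far A ∩ far C empty
          right
          rw [not_nonempty_iff_eq_empty] at e2
          have c2 : (far G C ∩ far G A).card ≤ k := by
            rw [inter_comm, e2]; simp
          refine ⟨one (far G C) hC' hxC' hs.2 ?_ c2 ?_, c2⟩
          · rw [hfC]; exact hs.1
          · rw [hfC]; exact e1
      · left
        rw [not_nonempty_iff_eq_empty] at e1
        have c1 : (C ∩ far G A).card ≤ k := by
          rw [inter_comm, e1]; simp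
        refine ⟨one C hCf hxC hs.1 hs.2 c1 ?_, c1⟩
        -- far A is not contained in nb C
        by_contra hcon
        rw [not_nonempty_iff_eq_empty] at hcon
        have hsplit := card_split G C (far G A)
        have hnk : (far G A ∩ nb G C).card ≤ k := by
          rw [← hCf.2.2]; exact card_le_card inter_subset_right
        rw [e1, hcon] at hsplit
        simp at hsplit
        omega
    · have sub : ∀ E : Finset V, E ⊆ nb G A → E.card < L + 2 * k ∧ (E ∩ far G A).card ≤ k := by
        intro E hE
        have h1 := card_le_card hE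
        rw [hA.2.2] at h1
        have h2 := card_le_card (inter_subset_left (s₁ := E) (s₂ := far G A))
        omega
      rcases hD' x hx C hCf hxC hs with h | h
      · exact Or.inl (sub _ h)
      · exact Or.inr (sub _ h)
  -- counting
  conv_rhs => lhs; rw [← hA.2.2]
  apply count (G := G) (P := fun C => Frag G k C ∧ (C.card < L + 2 * k ∧ (C ∩ far G A).card ≤ k)
    ∧ x ∈ nb G C)
  · rintro C1 C2 ⟨p1, ⟨p2, p2'⟩, p3⟩ ⟨q1, ⟨q2, q2'⟩, q3⟩ hne
    have hun : Frag G k (C1 ∪ C2) := by
      apply p1.union hK q1 hne
      apply room p1.2.2 q1.2.2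
      omega
    refine ⟨hun, ?_, mem_nb_union p3 q3⟩
    rcases ana _ hun (mem_nb_union p3 q3) with h | h
    · exact h
    · exfalso
      have e1 := card_univ_split G (C1 ∪ C2)
      have e2 := card_union_le C1 C2
      rw [hun.2.2] at e1
      omega
  · rintro C ⟨p1, ⟨p2, p2'⟩, p3⟩
    have aux : ((C ∪ nb G C) ∩ far G A).card ≤ 2 * k := by
      rw [union_inter_distrib_right]
      have e1 := card_union_le (C ∩ far G A) (nb G C ∩ far G A)
      have e2 := card_le_card (inter_subset_left (s₁ := nb G C) (s₂ := far G A))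
      rw [p1.2.2] at e2
      omega
    exact ⟨aux, aux⟩
  · intro y1 hy1 y2 hy2
    obtain ⟨B, hB, hXB⟩ := hC {x, y1, y2} (card_le_three)
    have hxB : x ∈ nb G B := hXB (by simp)
    have hy1B : y1 ∈ nb G B := hXB (by simp)
    have hy2B : y2 ∈ nb G B := hXB (by simp)
    have hB' := hB.compl hK
    have hnB := hB.nb_far hK
    rcases ana B hB hxB with h | h
    · exact ⟨B, ⟨hB, h, hxB⟩, meets hK hA hB hxA hxB hy1 hy1B, hy1B, hy2B⟩
    · refine ⟨far G B, ⟨hB', h, ?_⟩, meets hK hA hB' hxA ?_ hy1 ?_, ?_, ?_⟩ <;>
        rw [hnB] <;> assumption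

end Pool.Agent.W_MP_1501a3_co
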